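import Pool.Agent.Helper8_HK.Stmt0

set_option autoImplicit false

namespace Pool.Agent.HK.H19

open Polynomial HahnSeries

section

variable {F : Type} [Field F]

lemma unif_pow (n : ℕ) : (unif F) ^ n = HahnSeries.single (n : ℤ) (1 : F) := by
  rw [unif, single_pow]; simp

lemma unif_zpow (k : ℤ) : (unif F) ^ k = HahnSeries.single k (1 : F) := by
  obtain ⟨n, rfl | rfl⟩ := k.eq_nat_or_neg
  · rw [zpow_natCast, unif_pow]
  · rw [zpow_neg, zpow_natCast, unif_pow, inv_single, inv_one]

lemma unif_ne : unif F ≠ 0 := by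
  rw [unif]; simp

lemma coeff_unif_mul (k i : ℤ) (x : Kinf F) :
    HahnSeries.coeff ((unif F) ^ k * x) i = HahnSeries.coeff x (i - k) := by
  rw [unif_zpow, coeff_single_mul, one_mul]

lemma coeff_cst_mul (c : F) (x : Kinf F) (k : ℤ) :
    HahnSeries.coeff (cst F c * x) k = c * HahnSeries.coeff x k := by
  rw [cst, HahnSeries.C_mul_eq_smul]; simp

lemma emb_C (c : F) : emb F (C c) = cst F c := by
  simp [emb]

lemma emb_X : emb F X = HahnSeries.single (-1 : ℤ) (1 : F) := by
  simp [emb]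

lemma emb_monomial (n : ℕ) (c : F) : emb F (monomial n c) = HahnSeries.single (-(n : ℤ)) c := by
  rw [← C_mul_X_pow_eq_monomial, map_mul, map_pow, emb_C, emb_X, single_pow, cst,
    HahnSeries.C_mul_eq_smul]
  ext i
  simp [HahnSeries.coeff_single]

lemma coeff_emb (a : F[X]) : (∀ i : ℕ, HahnSeries.coeff (emb F a) (-(i : ℤ)) = a.coeff i) ∧
    ∀ k : ℤ, 0 < k → HahnSeries.coeff (emb F a) k = 0 := by
  induction a using Polynomial.induction_on' with
  | add p q hp hq =>
    refine ⟨fun i => ?_, fun k hk => ?_⟩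
    · rw [map_add, HahnSeries.coeff_add, hp.1, hq.1, Polynomial.coeff_add]
    · rw [map_add, HahnSeries.coeff_add, hp.2 k hk, hq.2 k hk, add_zero]
  | monomial n c =>
    refine ⟨fun i => ?_, fun k hk => ?_⟩
    · rw [emb_monomial, HahnSeries.coeff_single, Polynomial.coeff_monomial]
      by_cases h : n = i
      · subst h; simp
      · have h' : ¬ (-(i : ℤ)) = -(n : ℤ) := by omega
        simp [h, h']
    · rw [emb_monomial, HahnSeries.coeff_single, if_neg (by omega)]

lemma mul_InO (k l : ℤ) (x y : Kinf F) (hx : InO k x) (hy : InO l y) : InO (k + l) (x * y) ∧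
    HahnSeries.coeff (x * y) (k + l) = HahnSeries.coeff x k * HahnSeries.coeff y l := by
  constructor
  · intro i hi
    rw [HahnSeries.coeff_mul]
    apply Finset.sum_eq_zero
    rintro ⟨p, q⟩ hpq
    rw [Finset.mem_antidiagonal] at hpq
    obtain ⟨h1, h2, h3⟩ := hpq
    simp only [HahnSeries.mem_support] at h1 h2
    simp only at h3
    have hp : k ≤ p := not_lt.1 fun h => h1 (hx p h)
    have hq : l ≤ q := not_lt.1 fun h => h2 (hy q h)
    omega
  · rw [HahnSeries.coeff_mul]
    rw [Finset.sum_eq_single (k, l)]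
    · rintro ⟨p, q⟩ hpq hne
      rw [Finset.mem_antidiagonal] at hpq
      obtain ⟨h1, h2, h3⟩ := hpq
      simp only [HahnSeries.mem_support] at h1 h2
      simp only at h3
      have hp : k ≤ p := not_lt.1 fun h => h1 (hx p h)
      have hq : l ≤ q := not_lt.1 fun h => h2 (hy q h)
      exact absurd (Prod.ext (by simp; omega) (by simp; omega)) hne
    · intro h
      rw [Finset.mem_antidiagonal] at h
      simp only [HahnSeries.mem_support, not_and, and_true] at h
      by_contra hne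
      exact (h (fun h0 => hne (by simp [h0]))) (fun h0 => hne (by simp [h0])) |> fun h' => by
        simp at h'

lemma decomp (x : Kinf F) (hx : x ≠ 0) : ∃ (k : ℤ) (u : Kinf F), x = (unif F) ^ k * u ∧ InO 0 u ∧
    HahnSeries.coeff u 0 ≠ 0 := by
  refine ⟨x.order, (unif F) ^ (-x.order) * x, ?_, ?_, ?_⟩
  · rw [← mul_assoc, ← zpow_add₀ unif_ne, add_neg_cancel, zpow_zero, one_mul]
  · intro i hi
    rw [coeff_unif_mul]
    exact HahnSeries.coeff_eq_zero_of_lt_order (by omega)
  · rw [coeff_unif_mul]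
    have : (0 : ℤ) - -x.order = x.order := by ring
    rw [this]
    exact fun h => hx (HahnSeries.coeff_order_eq_zero.1 h)

lemma inv_InO (u : Kinf F) (hu : InO 0 u) (h0 : HahnSeries.coeff u 0 ≠ 0) : InO 0 u⁻¹ ∧
    HahnSeries.coeff u⁻¹ 0 = (HahnSeries.coeff u 0)⁻¹ := by
  have hne : u ≠ 0 := by rintro rfl; exact h0 (by simp)
  obtain ⟨m, v, hv, hv0, hv1⟩ := decomp u⁻¹ (inv_ne_zero hne)
  have hm : InO m u⁻¹ := by
    intro i hi
    rw [hv, coeff_unif_mul]
    exact hv0 _ (by omega)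
  have hc : HahnSeries.coeff u⁻¹ m = HahnSeries.coeff v 0 := by
    rw [hv, coeff_unif_mul, sub_self]
  have h1 := (mul_InO 0 m u u⁻¹ hu hm).2
  rw [mul_inv_cancel₀ hne, zero_add] at h1
  have hm0 : m = 0 := by
    by_contra hm'
    rw [HahnSeries.coeff_one, if_neg hm', hc] at h1
    exact (mul_ne_zero h0 hv1) h1.symm
  subst hm0
  refine ⟨hm, ?_⟩
  rw [HahnSeries.coeff_one, if_pos rfl] at h1
  exact eq_inv_of_mul_eq_one_right h1.symm

lemma polypart (x : Kinf F) : ∃ a : F[X], InO 1 (x - emb F a) := by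
  classical
  set N : ℕ := x.order.natAbs
  refine ⟨∑ i ∈ Finset.range (N + 1), monomial i (HahnSeries.coeff x (-(i : ℤ))), ?_⟩
  intro k hk
  obtain ⟨i, rfl⟩ : ∃ i : ℕ, k = -(i : ℤ) := ⟨(-k).toNat, by omega⟩
  rw [HahnSeries.coeff_sub, (coeff_emb _).1, Polynomial.finsetSum_coeff]
  simp only [Polynomial.coeff_monomial, Finset.sum_ite_eq', Finset.mem_range]
  split_ifs with h
  · simp
  · rw [sub_zero]
    apply HahnSeries.coeff_eq_zero_of_lt_order
    omega

end

/-- LAU -/
theorem lau : LAUStmt := by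
  intro F _
  refine ⟨fun a i => (coeff_emb a).1 i, fun a k hk => (coeff_emb a).2 k hk, coeff_cst_mul, emb_C,
    ?_, unif_ne, coeff_unif_mul, mul_InO, decomp, inv_InO, polypart, ?_, ?_⟩
  · rw [emb_X, unif_zpow]
  · intro a ha
    ext i
    rw [← (coeff_emb a).1 i, ha _ (by omega), Polynomial.coeff_zero]
  · intro a ha
    refine ⟨(unif F) ^ (a.natDegree : ℤ) * emb F a, ?_, ?_, ?_⟩
    · rw [← mul_assoc, ← zpow_add₀ unif_ne, neg_add_cancel, zpow_zero, one_mul]
    · intro i hi
      rw [coeff_unif_mul]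
      obtain ⟨j, hj⟩ : ∃ j : ℕ, i - (a.natDegree : ℤ) = -(j : ℤ) :=
        ⟨(-(i - (a.natDegree : ℤ))).toNat, by omega⟩
      rw [hj, (coeff_emb a).1]
      exact Polynomial.coeff_eq_zero_of_natDegree_lt (by omega)
    · rw [coeff_unif_mul, zero_sub, (coeff_emb a).1]
      exact ha

end Pool.Agent.HK.H19
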